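import Pool.Agent.helper81.PJ.Spec

/-!
Row DEN of PJ: the dense cells.
-/

set_option autoImplicit false

open Finset

namespace Pool.Agent.PJ

open Pool.Agent.PY2

lemma DEN_big (K a : ℝ) (ha : 0 < a) : ∃ p₀ : ℕ, ∀ p : ℕ, p₀ < p → K ≤ (p : ℝ) ^ a := by
  have h := ((tendsto_rpow_atTop ha).comp (tendsto_natCast_atTop_atTop (R := ℝ))).eventually_ge_atTop K
  obtain ⟨p₀, hp⟩ := Filter.eventually_atTop.1 h
  exact ⟨p₀, fun p h => hp p h.le⟩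

lemma DEN_core (W t q R C s5 T N L X Y b : ℝ)
    (hW : t ^ 2 * W ^ 4 ≤ 10 ^ 10 * s5 * T * (N ^ 4 * b ^ 3 * (b + q / L)))
    (hs0 : 0 ≤ s5) (hs : s5 ≤ R) (hT0 : 0 ≤ T) (hT : T ≤ C * R) (hb0 : 0 ≤ b) (hb : b ≤ 4 * Y)
    (hL : 0 < L) (hNL : N ≤ 2 * (t * L)) (hN : 0 < N) (ht : 0 < t) (hq : 0 < q) (hX : 0 < X)
    (hY : 0 < Y) (hR : 0 < R) (hC : 0 < C) (h1 : N ^ 4 * R ^ 16 ≤ 4 * t ^ 2 * X ^ 4)
    (h2 : N ^ 3 * (q * R ^ 16) ≤ 2 * t * (X ^ 4 * Y)) (hCR : 1280 * 10 ^ 10 * C ≤ R ^ 6) :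
    W * R ^ 2 ≤ X * Y := by
  have hqL : q / L ≤ 2 * t * q / N := by
    rw [div_le_div_iff₀ hL hN]
    nlinarith [mul_le_mul_of_nonneg_left hNL hq.le]
  have hb3 : b ^ 3 ≤ (4 * Y) ^ 3 := pow_le_pow_left₀ hb0 hb 3
  have hA : b ^ 3 * (b + q / L) ≤ (4 * Y) ^ 3 * (4 * Y + 2 * t * q / N) :=
    mul_le_mul hb3 (add_le_add hb hqL) (by positivity) (by positivity)
  have hB : N ^ 4 * b ^ 3 * (b + q / L) ≤ 256 * N ^ 4 * Y ^ 4 + 128 * (N ^ 3 * q) * (Y ^ 3 * t) := by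
    calc N ^ 4 * b ^ 3 * (b + q / L) = N ^ 4 * (b ^ 3 * (b + q / L)) := by ring
      _ ≤ N ^ 4 * ((4 * Y) ^ 3 * (4 * Y + 2 * t * q / N)) :=
          mul_le_mul_of_nonneg_left hA (by positivity)
      _ = 256 * N ^ 4 * Y ^ 4 + 128 * (N ^ 3 * q) * (Y ^ 3 * t) := by
          field_simp
          ring
  have hC1 : 10 ^ 10 * s5 * T ≤ 10 ^ 10 * R * (C * R) :=
    mul_le_mul (mul_le_mul_of_nonneg_left hs (by positivity)) hT hT0 (by positivity)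
  have hD : t ^ 2 * W ^ 4 ≤ 10 ^ 10 * R * (C * R) *
      (256 * N ^ 4 * Y ^ 4 + 128 * (N ^ 3 * q) * (Y ^ 3 * t)) :=
    hW.trans (mul_le_mul hC1 hB (by positivity) (by positivity))
  have hE : t ^ 2 * W ^ 4 * R ^ 16 ≤ R ^ 8 * (t ^ 2 * (X * Y) ^ 4) := by
    calc t ^ 2 * W ^ 4 * R ^ 16 ≤ 10 ^ 10 * R * (C * R) *
          (256 * N ^ 4 * Y ^ 4 + 128 * (N ^ 3 * q) * (Y ^ 3 * t)) * R ^ 16 :=
          mul_le_mul_of_nonneg_right hD (by positivity)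
      _ = 10 ^ 10 * C * R ^ 2 * (256 * Y ^ 4 * (N ^ 4 * R ^ 16) +
          128 * (Y ^ 3 * t) * (N ^ 3 * (q * R ^ 16))) := by ring
      _ ≤ 10 ^ 10 * C * R ^ 2 * (256 * Y ^ 4 * (4 * t ^ 2 * X ^ 4) +
          128 * (Y ^ 3 * t) * (2 * t * (X ^ 4 * Y))) := by
          refine mul_le_mul_of_nonneg_left (add_le_add ?_ ?_) (by positivity)
          · exact mul_le_mul_of_nonneg_left h1 (by positivity)
          · exact mul_le_mul_of_nonneg_left h2 (by positivity)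
      _ = (1280 * 10 ^ 10 * C) * (R ^ 2 * (t ^ 2 * (X * Y) ^ 4)) := by ring
      _ ≤ R ^ 6 * (R ^ 2 * (t ^ 2 * (X * Y) ^ 4)) :=
          mul_le_mul_of_nonneg_right hCR (by positivity)
      _ = R ^ 8 * (t ^ 2 * (X * Y) ^ 4) := by ring
  have hF : (W * R ^ 2) ^ 4 ≤ (X * Y) ^ 4 := by
    have hpos : 0 < t ^ 2 * R ^ 8 := by positivity
    refine le_of_mul_le_mul_left ?_ hpos
    calc t ^ 2 * R ^ 8 * (W * R ^ 2) ^ 4 = t ^ 2 * W ^ 4 * R ^ 16 := by ring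
      _ ≤ R ^ 8 * (t ^ 2 * (X * Y) ^ 4) := hE
      _ = t ^ 2 * R ^ 8 * (X * Y) ^ 4 := by ring
  by_contra hcon
  rw [not_le] at hcon
  exact absurd hF (not_le.2 (pow_lt_pow_left₀ hcon (by positivity) (by norm_num)))

lemma DEN_fin (S W R N X Y a b : ℝ)
    (hS : S ^ 2 ≤ b * a * (N * b / (N * R ^ 2 / X) + 2 * W)) (hW : W * R ^ 2 ≤ X * Y)
    (hR : 0 < R) (hN : 0 < N) (hX : 0 < X) (hY : 0 < Y) (ha0 : 0 ≤ a) (ha : a ≤ 4 * X)
    (hb0 : 0 ≤ b) (hb : b ≤ 4 * Y) : S ≤ 10 * R⁻¹ * (X * Y) := by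
  have hR2 : 0 < R ^ 2 := by positivity
  have h1 : N * b / (N * R ^ 2 / X) = b * X / R ^ 2 := by
    field_simp
  have hW' : W ≤ X * Y / R ^ 2 := by
    rw [le_div_iff₀ hR2]
    exact hW
  have h2 : b * X / R ^ 2 ≤ 4 * Y * X / R ^ 2 :=
    div_le_div_of_nonneg_right (mul_le_mul_of_nonneg_right hb hX.le) hR2.le
  have h3 : N * b / (N * R ^ 2 / X) + 2 * W ≤ 6 * (X * Y) / R ^ 2 := by
    rw [h1]
    have h4 : 6 * (X * Y) / R ^ 2 = 4 * Y * X / R ^ 2 + 2 * (X * Y / R ^ 2) := by ring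
    rw [h4]
    linarith
  have h5 : b * a ≤ 4 * Y * (4 * X) := mul_le_mul hb ha ha0 (by positivity)
  have h6 : S ^ 2 ≤ 4 * Y * (4 * X) * (6 * (X * Y) / R ^ 2) := by
    refine hS.trans ?_
    calc b * a * (N * b / (N * R ^ 2 / X) + 2 * W) ≤ b * a * (6 * (X * Y) / R ^ 2) :=
          mul_le_mul_of_nonneg_left h3 (mul_nonneg hb0 ha0)
      _ ≤ 4 * Y * (4 * X) * (6 * (X * Y) / R ^ 2) :=
          mul_le_mul_of_nonneg_right h5 (by positivity)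
  have h7 : S ^ 2 ≤ (10 * R⁻¹ * (X * Y)) ^ 2 := by
    refine h6.trans ?_
    have h8 : (10 * R⁻¹ * (X * Y)) ^ 2 = 100 * (X * Y) ^ 2 / R ^ 2 := by
      field_simp
      ring
    have h9 : 4 * Y * (4 * X) * (6 * (X * Y) / R ^ 2) = 96 * (X * Y) ^ 2 / R ^ 2 := by
      ring
    rw [h8, h9]
    refine div_le_div_of_nonneg_right ?_ hR2.le
    nlinarith [sq_nonneg (X * Y)]
  exact (abs_le.1 (abs_le_of_sq_le_sq h7 (by positivity))).2

theorem DEN (hCSA : CSA_stmt) (hDP : DP_stmt) (hDIV : DIV_stmt) : DEN_stmt := by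
  intro κ hκ
  obtain ⟨C, hC, hCd⟩ := hDIV (κ / 2) (by positivity)
  obtain ⟨C', hC', hCd'⟩ := hDIV (κ / 20) (by positivity)
  obtain ⟨p₁, hp₁⟩ := DEN_big (1280 * 10 ^ 10 * C) (3 * κ) (by positivity)
  obtain ⟨p₂, hp₂⟩ := DEN_big (C' ^ 5) (κ / 4) (by positivity)
  refine ⟨p₁ + p₂ + 3, ?_⟩
  intro p _ hp N L s X Y A B hA hX hY hAX hBY hL hsL hNs h72 h24 hH1 hH2 hcell χ hχ β hβ
  have hpp : (0 : ℝ) < p := by
    have : 0 < p := by omega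
    exact_mod_cast this
  have hp1 : (1 : ℝ) ≤ p := by
    have : 1 ≤ p := by omega
    exact_mod_cast this
  set R : ℝ := (p : ℝ) ^ (κ / 2) with hRdef
  have hR : 0 < R := Real.rpow_pos_of_pos hpp _
  have hR16 : (p : ℝ) ^ (8 * κ) = R ^ 16 := by
    rw [hRdef, ← Real.rpow_natCast, ← Real.rpow_mul hpp.le]
    congr 1
    push_cast
    ring
  have hR16' : (p : ℝ) ^ (1 + 8 * κ) = p * R ^ 16 := by
    rw [Real.rpow_add hpp, Real.rpow_one, hR16]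
  have hR2 : (p : ℝ) ^ κ = R ^ 2 := by
    rw [hRdef, ← Real.rpow_natCast, ← Real.rpow_mul hpp.le]
    congr 1
    push_cast
    ring
  have hR6 : (p : ℝ) ^ (3 * κ) = R ^ 6 := by
    rw [hRdef, ← Real.rpow_natCast, ← Real.rpow_mul hpp.le]
    congr 1
    push_cast
    ring
  have hNpos : 0 < N := by
    have h1 : 0 < 2 ^ s * L := Nat.mul_pos (by positivity) hL
    omega
  have hN0 : (0 : ℝ) < N := by exact_mod_cast hNpos
  have hL0 : (0 : ℝ) < L := by exact_mod_cast hL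
  have ht0 : (0 : ℝ) < (2 : ℝ) ^ s := by positivity
  have h2s : 2 ^ s ≤ p := by
    refine le_trans ?_ h24
    exact Nat.le_self_pow (by norm_num) _
  have h2s1 : 2 * 2 ^ s + 1 < p := by
    rcases Nat.lt_or_ge (2 ^ s) 2 with h | h
    · omega
    · have h3 : 2 ^ s * 8 ≤ (2 ^ s) ^ 4 := by
        have h5 : 8 ≤ (2 ^ s) ^ 3 := by
          calc 8 = 2 ^ 3 := by norm_num
            _ ≤ (2 ^ s) ^ 3 := Nat.pow_le_pow_left h 3
        calc 2 ^ s * 8 ≤ 2 ^ s * (2 ^ s) ^ 3 := Nat.mul_le_mul_left _ h5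
          _ = (2 ^ s) ^ 4 := by ring
      omega
  -- the divisor bound
  set T : ℕ := ⌊C * (p : ℝ) ^ (κ / 2)⌋₊ with hT
  have hTle : (T : ℝ) ≤ C * R := Nat.floor_le (by positivity)
  have hTd : ∀ m : ℕ, 1 ≤ m → m ≤ p → m.divisors.card ≤ T := by
    intro m hm hmp
    refine Nat.le_floor ((hCd m hm).trans ?_)
    refine mul_le_mul_of_nonneg_left ?_ hC.le
    exact Real.rpow_le_rpow (by positivity) (by exact_mod_cast hmp) (by positivity)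
  -- the logarithmic factor
  have hs5 : ((s : ℝ) + 1) ^ 5 ≤ R := by
    have h1 : ((2 ^ s).divisors.card : ℝ) = (s : ℝ) + 1 := by
      rw [Nat.divisors_prime_pow Nat.prime_two, card_map, card_range]
      push_cast
      ring
    have h2 := hCd' (2 ^ s) Nat.one_le_two_pow
    rw [h1] at h2
    have h3 : ((2 ^ s : ℕ) : ℝ) ^ (κ / 20) ≤ (p : ℝ) ^ (κ / 20) :=
      Real.rpow_le_rpow (by positivity) (by exact_mod_cast h2s) (by positivity)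
    have h4 : (s : ℝ) + 1 ≤ C' * (p : ℝ) ^ (κ / 20) :=
      h2.trans (mul_le_mul_of_nonneg_left h3 hC'.le)
    calc ((s : ℝ) + 1) ^ 5 ≤ (C' * (p : ℝ) ^ (κ / 20)) ^ 5 :=
          pow_le_pow_left₀ (by positivity) h4 5
      _ = C' ^ 5 * (p : ℝ) ^ (κ / 4) := by
          rw [mul_pow, ← Real.rpow_natCast ((p : ℝ) ^ (κ / 20)), ← Real.rpow_mul hpp.le]
          congr 2
          push_cast
          ring
      _ ≤ (p : ℝ) ^ (κ / 4) * (p : ℝ) ^ (κ / 4) :=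
          mul_le_mul_of_nonneg_right (hp₂ p (by omega)) (by positivity)
      _ = R := by
          rw [hRdef, ← Real.rpow_add hpp]
          congr 1
          ring
  have hDPc := hDP p χ hχ N L s T B hL hsL h72 h24 h2s1 hTd
  have h4s : (4 : ℝ) ^ s = ((2 : ℝ) ^ s) ^ 2 := by
    rw [← pow_mul, mul_comm, pow_mul]
    norm_num
  rw [h4s] at hDPc
  rw [hR16] at hH1
  rw [hR16'] at hH2
  have hNs' : (N : ℝ) ≤ 2 * ((2 : ℝ) ^ s * L) := by exact_mod_cast hNs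
  have hWW : WW χ B N L * R ^ 2 ≤ X * Y :=
    DEN_core (WW χ B N L) ((2 : ℝ) ^ s) p R C (((s : ℝ) + 1) ^ 5) T N L X Y B.card hDPc
      (by positivity) hs5 (by positivity) hTle (by positivity) hBY hL0 hNs' hN0 ht0 hpp hX hY hR hC
      hH1 hH2 (by rw [← hR6]; exact hp₁ p (by omega))
  have hE : 0 < (N : ℝ) * (p : ℝ) ^ κ / X := by positivity
  have hCS := hCSA p χ N L ((N : ℝ) * (p : ℝ) ^ κ / X) A B β hA hL hE hβ hcell
  rw [hR2] at hCS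
  have hfin := DEN_fin _ (WW χ B N L) R N X Y A.card B.card hCS hWW hR hN0 hX hY (by positivity)
    hAX (by positivity) hBY
  rw [Real.rpow_neg hpp.le]
  exact hfin

end Pool.Agent.PJ
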